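import Pool.Agent.H672R2.Auto.Main
import Pool.Agent.N912.PY.Stm

/-!
# Project PY (helper912): automatic sequences in arbitrary bases and multiplicative functions
The method is that of `Pool/Agent/H672R2/Auto/Main.lean` (starting file), with the triple of `S_BT`.
-/

set_option autoImplicit false

namespace Pool.Agent.N912.PY.Multi

open Pool.Agent.H672R2.Auto Pool.Agent.H672R2.Auto.Mach

universe u v

/-- the theorem for machines -/
theorem multi_mach (hBT : S_BT) {m : ℕ} {C : Type v} (k : Fin m → ℕ) (hk : ∀ t, 2 ≤ k t) {K : ℕ}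
    (hK2 : 2 ≤ K) (D : ∀ t, Dec K (k t))
    (M : ∀ t, Mach.{u, v} (k t) C) (c : Fin m → ℕ → C) (hc : ∀ t, (M t).Computes (c t))
    (G : Type) [AddCommGroup G] [Finite G] (F₀ : ℕ → G) (hF₀ : CA F₀) (fl : ℕ) :
    ∃ x y z : ℕ, 0 < x ∧ 0 < y ∧ 0 < z ∧ x ^ 2 + y ^ 2 = z ^ 2 ∧ fl * x ≤ y ∧
      (∀ t, c t x = c t y ∧ c t y = c t z) ∧ F₀ x = F₀ y ∧ F₀ y = F₀ z := by
  classical
  -- periods and words of minimal rank
  choose p hp1 hpid using fun t => (M t).exists_per (hk t)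
  have hper : ∀ t, (M t).IsPer (p t) := fun t => ⟨hp1 t, hk t, hpid t⟩
  choose μ u hu hmin using fun t => (M t).exists_min
  -- names for the arithmetic data
  let zz : Fin m → ℕ := fun t => (D t).z
  let cc : Fin m → ℕ := fun t => (D t).g
  let k0 : Fin m → ℕ := fun t => (D t).k0
  let k1 : Fin m → ℕ := fun t => (D t).k1
  let jj : Fin m → ℕ := fun t => (D t).j
  have hzz : ∀ t, 1 ≤ zz t := fun t => (D t).hz
  have hK : ∀ t, K = k t ^ zz t * cc t := fun t => (D t).hK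
  have hk01 : ∀ t, k t = k0 t * k1 t := fun t => (D t).hk
  have hcc : ∀ t, Nat.Coprime (cc t) (k0 t) := fun t => (D t).hg0
  have h1g : ∀ t, k1 t ∣ cc t ^ jj t := fun t => (D t).h1g
  have hk02 : ∀ t, 2 ≤ k0 t := fun t => (D t).hk0
  have hcop01 : ∀ t, Nat.Coprime (k0 t) (k1 t) := fun t => (D t).cop
  obtain ⟨Mo, f0, hMo1, LL, vv, hnc⟩ := nested_cong k D μ u hu
  have hvlt : ∀ t, vv t < k t ^ LL t := fun t => (hnc t).1
  have hv1 : ∀ t, k1 t ^ LL t ∣ vv t := fun t => (hnc t).2.2.1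
  have hf0 : ∀ t, f0 ≡ vv t [MOD k0 t ^ LL t] := fun t => (hnc t).2.2.2.2
  have hrv : ∀ t, rk ((M t).T (LL t) (vv t)) ≤ rk ((M t).T (μ t) (u t)) := by
    intro t
    obtain ⟨s', low, h1, h2, h3⟩ := (hnc t).2.1
    have e : (M t).T (LL t) (vv t) = (M t).T (μ t) (u t) ∘ (M t).T s' low := by
      funext q
      rw [h2, h3, Function.comp]
      exact (M t).comp _ _ _ _ h1 (hu t) q
    rw [e]
    exact rk_comp_le_left _ _
  -- real data
  obtain ⟨δ, hδ, hδ1, hnest⟩ := nested Finset.univ k μ u (fun t _ => hk t) (fun t _ => hu t)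
  set η : ℝ := δ / 16 with hη
  have hη0 : 0 < η := by positivity
  -- integers
  set B : ℕ := ∏ t, (p t * Nat.totient (k0 t ^ LL t) * (jj t * LL t + 1)) with hBdef
  have hB1 : 1 ≤ B := by
    apply Nat.one_le_iff_ne_zero.2
    apply Finset.prod_ne_zero_iff.2
    intro t _
    have h1 := hp1 t
    have h2 : 0 < Nat.totient (k0 t ^ LL t) :=
      Nat.totient_pos.2 (pow_pos (by have := hk02 t; omega) _)
    positivity
  have hBt : ∀ t, p t * Nat.totient (k0 t ^ LL t) * (jj t * LL t + 1) ∣ B := fun t =>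
    Finset.dvd_prod_of_mem _ (Finset.mem_univ t)
  have hBp : ∀ t, p t ∣ B := fun t =>
    dvd_trans (dvd_trans (dvd_mul_right _ _) (dvd_mul_right _ _)) (hBt t)
  have hBj : ∀ t, jj t * LL t ≤ B := fun t => by
    have h1 := Nat.le_of_dvd hB1 (dvd_trans (dvd_mul_left _ _) (hBt t))
    omega
  have hunit : ∀ t n, cc t ^ (B * n) ≡ 1 [MOD k0 t ^ LL t] := by
    intro t n
    obtain ⟨b, hb⟩ := dvd_trans (dvd_trans (dvd_mul_left _ _) (dvd_mul_right _ _)) (hBt t)
    have h1 : cc t ^ Nat.totient (k0 t ^ LL t) ≡ 1 [MOD k0 t ^ LL t] :=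
      Nat.ModEq.pow_totient (Nat.Coprime.pow_right _ (hcc t))
    have h2 := h1.pow (b * n)
    rw [one_pow, ← pow_mul, ← mul_assoc, ← hb] at h2
    exact h2
  have hzero : ∀ t n, cc t ^ (B * (n + 1)) ≡ 0 [MOD k1 t ^ LL t] := by
    intro t n
    apply Nat.modEq_zero_iff_dvd.2
    have h1 : k1 t ^ LL t ∣ cc t ^ (jj t * LL t) := by
      rw [pow_mul]
      exact pow_dvd_pow_of_dvd (h1g t) _
    refine dvd_trans h1 (pow_dvd_pow _ ?_)
    have := hBj t
    nlinarith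
  set Λ : ℕ := ∑ t, LL t with hΛ
  have hΛt : ∀ t, LL t ≤ Λ := fun t =>
    Finset.single_le_sum (f := fun t => LL t) (fun _ _ => Nat.zero_le _) (Finset.mem_univ t)
  have hη1 : η ≤ 1 / 16 := by rw [hη]; linarith
  have hη8 : 0 < η / 8 := by positivity
  -- the triple
  obtain ⟨B₁, hB₁, hBT'⟩ := hBT K hK2 G F₀ hF₀ Λ (η / 8) hη8
  have hKB : 2 ≤ K ^ B₁ := le_trans hK2 (Nat.le_self_pow (by omega) K)
  obtain ⟨γ, hγG, hγ⟩ := close_powers k p hk hp1 hKB hη8 (fl + 1)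
  choose β hβ1 hβ2 using hγ
  obtain ⟨α, hα⟩ : ∃ α : ℕ, α = B * B₁ := ⟨_, rfl⟩
  obtain ⟨a₁, ha₁⟩ : ∃ a₁ : ℕ, a₁ = B₁ * γ := ⟨_, rfl⟩
  have hα1 : 1 ≤ α := by rw [hα]; exact Nat.mul_pos hB1 hB₁
  have ha₁1 : 1 ≤ a₁ := by rw [ha₁]; exact Nat.mul_pos hB₁ (by omega)
  have ha₁fl : fl + 1 ≤ a₁ := by
    rw [ha₁]
    exact hγG.trans (Nat.le_mul_of_pos_left _ hB₁)
  obtain ⟨T, X, Z, hT0, hX0, hZ0, hpyth, hTX, hXZm, hTK, hs1, hs2, hF1, hF2⟩ :=
    hBT' a₁ α ha₁1 hα1 (ha₁ ▸ dvd_mul_right _ _) (hα ▸ dvd_mul_left _ _)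
  set Y : ℕ := K ^ α * T with hY
  have hKpos : 0 < K := by omega
  -- congruences
  have hk0K : ∀ t, k0 t ∣ K := by
    intro t
    rw [hK t]
    apply Dvd.dvd.mul_right
    refine dvd_trans ?_ (dvd_pow_self _ (by have := hzz t; omega))
    rw [hk01 t]
    exact dvd_mul_right _ _
  have hdivK : ∀ t, k0 t ^ LL t ∣ K ^ Λ := by
    intro t
    exact dvd_trans (pow_dvd_pow_of_dvd (hk0K t) _) (pow_dvd_pow _ (hΛt t))
  have hXmod : ∀ t, X ≡ T [MOD k0 t ^ LL t] := fun t => (hTX.symm).of_dvd (hdivK t)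
  have hZmod : ∀ t, Z ≡ T [MOD k0 t ^ LL t] := fun t =>
    (hXZm.symm.trans hTX.symm).of_dvd (hdivK t)
  -- the inverse of `T`
  have hKΛ1 : 1 ≤ K ^ Λ := Nat.one_le_pow _ _ hKpos
  obtain ⟨f1, hf1T⟩ : ∃ f1 : ℕ, T * f1 ≡ f0 [MOD K ^ Λ] := by
    have hcop : Nat.Coprime T (K ^ Λ) := Nat.Coprime.pow_right _ hTK
    obtain ⟨g, hg⟩ : ∃ g : ℕ, T * g ≡ 1 [MOD K ^ Λ] := by
      refine ⟨((T : ZMod (K ^ Λ))⁻¹).val, ?_⟩
      haveI : NeZero (K ^ Λ) := ⟨by omega⟩
      rw [← ZMod.natCast_eq_natCast_iff]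
      push_cast
      rw [ZMod.natCast_zmod_val, ZMod.coe_mul_inv_eq_one T hcop]
    refine ⟨g * f0, ?_⟩
    have := hg.mul_right f0
    rwa [one_mul, mul_assoc] at this
  -- real inequalities
  have hKr : (2 : ℝ) ≤ K := by exact_mod_cast hK2
  have hXpos : (0 : ℝ) < X := by exact_mod_cast hX0
  have hXZ : (X : ℝ) ≤ Z := by
    have h1 : X ^ 2 ≤ Z ^ 2 := by rw [← hpyth]; exact Nat.le_add_left _ _
    exact_mod_cast (Nat.pow_le_pow_iff_left (by norm_num)).1 h1
  have hZX : (Z : ℝ) ≤ (1 + η) * X := by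
    have := (abs_le.1 hs2).2
    nlinarith
  have hYr : (Y : ℝ) = (K : ℝ) ^ α * T := by rw [hY]; push_cast; ring
  have hY0 : (0 : ℝ) ≤ Y := by positivity
  have hKaY : (K : ℝ) ^ a₁ * Y = (K : ℝ) ^ (a₁ + α) * T := by rw [hYr, pow_add]; ring
  have hKaY1 : (K : ℝ) ^ a₁ * Y ≤ (1 + η / 8) * X := by
    rw [hKaY]
    have := (abs_le.1 hs1).2
    nlinarith
  have hKaY2 : (1 - η / 8) * X ≤ (K : ℝ) ^ a₁ * Y := by
    rw [hKaY]
    have := (abs_le.1 hs1).1
    nlinarith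
  have hKae : ((K ^ B₁ : ℕ) : ℝ) ^ γ = (K : ℝ) ^ a₁ := by
    rw [ha₁, pow_mul]
    push_cast
    rfl
  have hY2 : ∀ t, (1 - η) * ((k t : ℝ) ^ (p t * β t) * Y) ≤ X := by
    intro t
    have h1 := mul_le_mul_of_nonneg_right (hβ1 t) hY0
    rw [hKae] at h1
    have h2 : (0 : ℝ) ≤ (k t : ℝ) ^ (p t * β t) * Y := by positivity
    have h3 : (1 - η / 8) * ((k t : ℝ) ^ (p t * β t) * Y) ≤ (1 + η / 8) * X := by
      rw [← mul_assoc]
      exact h1.trans hKaY1
    have h4 : (1 + η / 8) * ((1 - η) * ((k t : ℝ) ^ (p t * β t) * Y)) ≤ (1 + η / 8) * X := by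
      refine le_trans ?_ h3
      rw [← mul_assoc]
      exact mul_le_mul_of_nonneg_right (by nlinarith) h2
    exact le_of_mul_le_mul_left h4 (by linarith)
  have hY1 : ∀ t, (1 - η) * (X : ℝ) ≤ (1 + η) * ((k t : ℝ) ^ (p t * β t) * Y) := by
    intro t
    have h1 := mul_le_mul_of_nonneg_right (hβ2 t) hY0
    rw [hKae] at h1
    have h2 : (0 : ℝ) ≤ (k t : ℝ) ^ (p t * β t) * Y := by positivity
    nlinarith
  have hflY : fl * Y ≤ X := by
    have h1 : (2 * fl : ℝ) ≤ (K : ℝ) ^ a₁ := by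
      have q1 : fl < 2 ^ fl := Nat.lt_two_pow_self
      have q2 : 2 ^ (fl + 1) ≤ K ^ a₁ :=
        (Nat.pow_le_pow_left hK2 _).trans (Nat.pow_le_pow_right hKpos ha₁fl)
      have q3 : 2 * fl ≤ K ^ a₁ := by
        rw [pow_succ] at q2
        omega
      exact_mod_cast q3
    have h2 : (2 * fl : ℝ) * Y ≤ (K : ℝ) ^ a₁ * Y := mul_le_mul_of_nonneg_right h1 hY0
    have h3 : (fl : ℝ) * Y ≤ X := by nlinarith
    exact_mod_cast h3
  have hcomb : ∀ t (a : ℕ), a ≡ T [MOD k0 t ^ LL t] → ∀ f n : ℕ, f ≡ f1 [MOD K ^ Λ] →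
      a * f * cc t ^ (B * (n + 1)) ≡ vv t [MOD k t ^ LL t] := by
    intro t a ha f n hf
    rw [hk01 t, mul_pow]
    apply (Nat.modEq_and_modEq_iff_modEq_mul (Nat.Coprime.pow _ _ (hcop01 t))).1
    constructor
    · have h1 : a * f ≡ vv t [MOD k0 t ^ LL t] :=
        ((ha.mul (hf.of_dvd (hdivK t))).trans (hf1T.of_dvd (hdivK t))).trans (hf0 t)
      simpa using h1.mul (hunit t (n + 1))
    · have h1 := (hzero t n).mul_left (a * f)
      rw [mul_zero] at h1
      exact h1.trans (Nat.modEq_zero_iff_dvd.2 (hv1 t)).symm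
  -- multipliers
  have hmult : ∀ i : ℕ, ∃ f : ℕ, 0 < f ∧ ∀ t, ∃ w ρ ρ' : ℕ,
      Shape (k t) (LL t) (vv t) (μ t) (u t) 0 ρ w (X * f * cc t ^ (B * (i + 1))) ∧
      Shape (k t) (LL t) (vv t) (μ t) (u t) 0 ρ w (Z * f * cc t ^ (B * (i + 1))) ∧
      Shape (k t) (LL t) (vv t) (μ t) (u t) (zz t * α) ρ' w (Y * f * cc t ^ (B * (i + 1))) ∧
      0 + ρ ≡ zz t * α + ρ' [MOD p t] := by
    intro i
    set e : ℕ := B * (i + 1) with he
    set H : ℕ := ∑ t, (zz t * e + zz t * α + LL t + p t * β t) with hH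
    have hHt : ∀ t, zz t * e + zz t * α + LL t + p t * β t ≤ H := fun t =>
      Finset.single_le_sum (f := fun t => zz t * e + zz t * α + LL t + p t * β t)
        (fun _ _ => Nat.zero_le _) (Finset.mem_univ t)
    obtain ⟨A0, hA0, hA⟩ := hnest H
    set cr : ℝ := (X : ℝ) * (K : ℝ) ^ e with hcr
    have hcr0 : 0 < cr := by positivity
    obtain ⟨A', hAA', hgood⟩ := hA (max A0 (cr * f1 + 4 * (cr * (K ^ Λ : ℕ)) / δ)) (le_max_left _ _)
    have hA'0 : 0 < A' := lt_of_lt_of_le hA0 (le_trans (le_max_left _ _) hAA')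
    have hA'1 : cr * f1 + 4 * (cr * (K ^ Λ : ℕ)) / δ ≤ A' := le_trans (le_max_right _ _) hAA'
    have h4pos : 0 ≤ 4 * (cr * (K ^ Λ : ℕ)) / δ := by positivity
    have hcf : 0 ≤ cr * (f1 : ℝ) := by positivity
    obtain ⟨f, hf1, hf2, hf3⟩ := exists_mult (f0 := f1) hKΛ1 hcr0
      (B := A' * (1 + δ / 4)) (len := A' * (δ / 4)) (by nlinarith)
      (by
        have h1 : 4 * (cr * (K ^ Λ : ℕ)) / δ ≤ A' := by linarith
        rw [div_le_iff₀ hδ] at h1
        linarith)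
    have hfpos : 0 < f := by
      by_contra h
      have : f = 0 := by omega
      subst this
      simp only [Nat.cast_zero, mul_zero] at hf2
      nlinarith
    refine ⟨f, hfpos, fun t => ?_⟩
    obtain ⟨θ, w, hθ, hw1, hw2⟩ := hgood t (Finset.mem_univ t)
    have hHt' := hHt t
    have hKe' : (K : ℝ) ^ e = (k t : ℝ) ^ (zz t * e) * (cc t : ℝ) ^ e := by
      rw [pow_mul (k t : ℝ), ← mul_pow]
      congr 1
      exact_mod_cast hK t
    have hfr : (0 : ℝ) < f := by exact_mod_cast hfpos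
    set F : ℝ := (f : ℝ) * (K : ℝ) ^ e with hF
    have hF0 : 0 < F := by positivity
    have hXF1 : A' * (1 + δ / 4) ≤ X * F := by
      have : (X : ℝ) * F = cr * f := by rw [hF, hcr]; ring
      linarith
    have hXF2 : X * F ≤ A' * (1 + δ / 2) := by
      have : (X : ℝ) * F = cr * f := by rw [hF, hcr]; ring
      nlinarith
    have hXF0 : 0 < X * F := by positivity
    have hAδ : 0 < A' * δ := by positivity
    refine ⟨w, θ - zz t * e - LL t, θ - zz t * e - p t * β t - zz t * α - LL t, ?_, ?_, ?_, ?_⟩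
    · have := shape_of (k := k t) (Λ := LL t) (v := vv t) (μ := μ t) (u := u t) (α := 0) (θ := θ)
        (w := w) (a' := X * f * cc t ^ e) (q := 0) (e := zz t * e) (hk t) (hvlt t)
        (ξ := X * F) (A := A') (δ := δ)
        (hcomb t X (hXmod t) f i hf1)
        (by rw [hF, hKe']; push_cast; ring) (by nlinarith) (by nlinarith) hw1 hw2
        (ρ := θ - zz t * e - LL t) (by omega)
      simpa using this
    · have := shape_of (k := k t) (Λ := LL t) (v := vv t) (μ := μ t) (u := u t) (α := 0) (θ := θ)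
        (w := w) (a' := Z * f * cc t ^ e) (q := 0) (e := zz t * e) (hk t) (hvlt t)
        (ξ := Z * F) (A := A') (δ := δ)
        (hcomb t Z (hZmod t) f i hf1)
        (by rw [hF, hKe']; push_cast; ring)
        (by
          have h1 := mul_le_mul_of_nonneg_right hXZ hF0.le
          nlinarith)
        (by
          have h1 := mul_le_mul_of_nonneg_right hZX hF0.le
          have h2 : (1 + η) * (X * F) ≤ (1 + η) * (A' * (1 + δ / 2)) :=
            mul_le_mul_of_nonneg_left hXF2 (by linarith)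
          have h3 : (1 + η) * (A' * (1 + δ / 2)) < A' * (1 + δ) := by
            rw [hη]
            nlinarith
          nlinarith) hw1 hw2
        (ρ := θ - zz t * e - LL t) (by omega)
      simpa using this
    · have hYeq : Y * f * cc t ^ e = k t ^ (zz t * α) * (cc t ^ α * T * f * cc t ^ e) := by
        rw [hY, show K ^ α = k t ^ (zz t * α) * cc t ^ α by rw [pow_mul (k t), ← mul_pow, ← hK t]]
        ring
      rw [hYeq]
      have hαmod := hunit t B₁
      rw [← hα] at hαmod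
      have hgT : cc t ^ α * T ≡ T [MOD k0 t ^ LL t] := by
        simpa using hαmod.mul_right T
      refine shape_of (k := k t) (Λ := LL t) (v := vv t) (μ := μ t) (u := u t) (α := zz t * α)
        (θ := θ) (w := w)
        (a' := cc t ^ α * T * f * cc t ^ e) (q := p t * β t) (e := zz t * e) (hk t) (hvlt t)
        (ξ := (k t : ℝ) ^ (p t * β t) * Y * F) (A := A') (δ := δ)
        (hcomb t (cc t ^ α * T) hgT f i hf1) ?_ ?_ ?_ hw1 hw2
        (by omega)
      · rw [← hYeq, hF, hKe', pow_add]; push_cast; ring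
      · have h1 := mul_le_mul_of_nonneg_right (hY1 t) hF0.le
        have h2 : (1 - η) * (A' * (1 + δ / 4)) ≤ (1 - η) * (X * F) :=
          mul_le_mul_of_nonneg_left hXF1 (by linarith)
        have h3 : (1 + η) * A' ≤ (1 - η) * (A' * (1 + δ / 4)) := by
          rw [hη]
          nlinarith
        have h4 : (1 + η) * A' ≤ (1 + η) * ((k t : ℝ) ^ (p t * β t) * Y * F) := by nlinarith
        exact le_of_mul_le_mul_left h4 (by linarith)
      · have h1 := mul_le_mul_of_nonneg_right (hY2 t) hF0.le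
        have h3 : A' * (1 + δ / 2) < (1 - η) * (A' * (1 + δ)) := by
          rw [hη]
          nlinarith
        have h4 : (1 - η) * ((k t : ℝ) ^ (p t * β t) * Y * F) < (1 - η) * (A' * (1 + δ)) := by
          nlinarith
        exact lt_of_mul_lt_mul_left h4 (by linarith)
    · have h1 : 0 + (θ - zz t * e - LL t) =
          (zz t * α + (θ - zz t * e - p t * β t - zz t * α - LL t)) + p t * β t := by
        omega
      rw [h1]
      have : (zz t * α + (θ - zz t * e - p t * β t - zz t * α - LL t)) + p t * β t ≡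
          (zz t * α + (θ - zz t * e - p t * β t - zz t * α - LL t)) + 0 [MOD p t] :=
        Nat.ModEq.add_left _ (Nat.modEq_zero_iff_dvd.2 (dvd_mul_right _ _))
      simpa using this
  choose f hf0' hfs using hmult
  -- pigeonhole
  let val : Fin 3 → ℕ := ![X, Y, Z]
  let Ψ : ℕ → (∀ t : Fin m, Fin 3 → (M t).Q → (M t).Q) := fun i t W =>
    (M t).hat (p t) (val W * f i * cc t ^ (B * (i + 1)))
  obtain ⟨Φ, hΦ⟩ := Finite.exists_infinite_fiber Ψ
  have hS : (Ψ ⁻¹' {Φ}).Infinite := Set.infinite_coe_iff.1 hΦ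
  set N : ℕ := ∏ t, (Nat.card (M t).Q).factorial with hN
  have hN0 : 0 < N := Finset.prod_pos fun t _ => Nat.factorial_pos _
  obtain ⟨d, hd0, hdiv, hd⟩ := assemble k hK2 cc zz hzz hK M p hper hBp hB1 val f hf0' Φ hS
    (fun i hi t W => by
      have : Ψ i = Φ := hi
      rw [← this]) N
  have hdpos := hd0 hN0.ne'
  obtain ⟨i, hi⟩ := hS.nonempty
  have hi : Ψ i = Φ := hi
  have hcol : ∀ t W, c t (val W * d) = (M t).out ((Φ t W)^[N] ((M t).T (p t) 0 (M t).q0)) := by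
    intro t W
    rw [← out_hat (hper t) (hc t) (Dvd.dvd.mul_left (hdiv t) (val W)), hd]
  have hXY : ∀ t, (Φ t 0)^[N] = (Φ t 1)^[N] ∧ (Φ t 0)^[N] = (Φ t 2)^[N] := by
    intro t
    obtain ⟨w, ρ, ρ', h0, h2, h1, hmod⟩ := hfs i t
    have hdvd : (Nat.card (M t).Q).factorial ∣ N := Finset.dvd_prod_of_mem _ (Finset.mem_univ t)
    have hpα : p t ∣ zz t * α := by
      rw [hα]
      exact Dvd.dvd.mul_left (Dvd.dvd.mul_right (hBp t) _) _
    rw [← hi]
    constructor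
    · exact iterate_hat_eq (hper t) (hu t) (hvlt t) (hmin t) (hrv t) h0 h1 (dvd_zero _) hpα hmod hdvd hN0
    · exact iterate_hat_eq (hper t) (hu t) (hvlt t) (hmin t) (hrv t) h0 h2 (dvd_zero _) (dvd_zero _) rfl hdvd hN0
  have hYpos : 0 < Y := by rw [hY]; positivity
  refine ⟨Y * d, X * d, Z * d, by positivity, by positivity, by positivity, ?_, ?_, fun t => ?_,
    ?_, ?_⟩
  · have h1 : (Y * d) ^ 2 + (X * d) ^ 2 = (Y ^ 2 + X ^ 2) * d ^ 2 := by ring
    rw [h1, hpyth]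
    ring
  · rw [← mul_assoc]
    exact Nat.mul_le_mul_right d hflY
  · have e0 := hcol t 0
    have e1 := hcol t 1
    have e2 := hcol t 2
    simp only [val, Matrix.cons_val_zero, Matrix.cons_val_one, Matrix.cons_val_two,
      Matrix.head_cons, Matrix.tail_cons, Matrix.cons_val] at e0 e1 e2
    rw [e0, e1, e2, ← (hXY t).1, (hXY t).2]
    exact ⟨rfl, rfl⟩
  · rw [hF₀ _ _ hYpos hdpos, hF₀ _ _ hX0 hdpos, hF1]
  · rw [hF₀ _ _ hX0 hdpos, hF₀ _ _ hZ0 hdpos, hF2]

/-- Finitely many automatic sequences in arbitrary bases, and a completely additive function with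
values in a finite group. -/
def S_MB : Prop := ∀ (m : ℕ) (C : Type) (k : Fin m → ℕ), (∀ t, 2 ≤ k t) → ∀ c : Fin m → ℕ → C,
  (∀ t, (kerS (k t) (c t)).Finite) → ∀ (G : Type) [AddCommGroup G] [Finite G] (f : ℕ → G), CA f →
  ∀ r : ℕ, ∃ x y z : ℕ, 0 < x ∧ 0 < y ∧ 0 < z ∧ x ^ 2 + y ^ 2 = z ^ 2 ∧ r * x ≤ y ∧
    (∀ t, c t x = c t y ∧ c t y = c t z) ∧ f x = f y ∧ f y = f z

theorem multi (hBT : S_BT) : S_MB := by
  intro m C k hk c hauto G _ _ f hf r
  have hauto' : ∀ t, IsAutomatic (k t) (c t) := hauto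
  choose M hM using fun t => exists_mach (hk t) (hauto' t)
  obtain ⟨K, hK2, _, hD⟩ := exists_dec k hk
  exact multi_mach hBT k hk hK2 (fun t => (hD t).some) M c hM G f hf r

end Pool.Agent.N912.PY.Multi
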