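import Pool.Agent.N912.PY.Stm

/-!
# Project PY (helper912): completely multiplicative maps to finite commutative semigroups
After a dilation such a map is a map to a finite abelian group.
-/

set_option autoImplicit false

namespace Pool.Agent.N912.PY.Semi

open Finset

/-- a finite commutative semigroup in which all the equations `s t = u` have solutions `t` -/
theorem exists_unit {I : Type} [CommSemigroup I] (h : ∀ s u : I, ∃ t : I, s * t = u) (s₀ : I) :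
    ∃ e : I, (∀ t, e * t = t) ∧ ∀ s : I, ∃ t : I, t * s = e := by
  obtain ⟨e, he⟩ := h s₀ s₀
  refine ⟨e, fun t => ?_, fun s => ?_⟩
  · obtain ⟨t', rfl⟩ := h s₀ t
    rw [← mul_assoc, mul_comm e, he]
  · obtain ⟨t, ht⟩ := h s e
    exact ⟨t, by rw [mul_comm, ht]⟩

/-- it is a group -/
noncomputable def mkGroup (I : Type) [CommSemigroup I] (e : I) (h1 : ∀ t : I, e * t = t)
    (h2 : ∀ s : I, ∃ t : I, t * s = e) : CommGroup I :=
  { (inferInstance : CommSemigroup I) with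
    one := e
    one_mul := h1
    mul_one := fun t => (mul_comm t e).trans (h1 t)
    inv := fun s => (h2 s).choose
    inv_mul_cancel := fun s => (h2 s).choose_spec }

/-- a completely multiplicative map to a finite commutative semigroup is, after a dilation, a
completely additive map to a finite abelian group -/
theorem dilate {M : Type} [CommSemigroup M] [Finite M] (f : ℕ → M)
    (hf : ∀ m n : ℕ, 0 < m → 0 < n → f (m * n) = f m * f n) :
    ∃ P : ℕ, 0 < P ∧ ∃ (G : Type) (_ : AddCommGroup G) (_ : Finite G) (F : ℕ → G), CA F ∧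
      ∀ m n : ℕ, 0 < m → 0 < n → F m = F n → f (P * m) = f (P * n) := by
  classical
  -- the sets `f (P ℕ)`
  let J : ℕ → Set M := fun P => {s | ∃ n : ℕ, 0 < n ∧ s = f (P * n)}
  have hJ : ∀ P : ℕ, (J P).Finite := fun P => Set.toFinite _
  obtain ⟨P₀, hP₀, hmin⟩ : ∃ P₀ : ℕ, 0 < P₀ ∧ ∀ P : ℕ, 0 < P → (J P₀).ncard ≤ (J P).ncard := by
    have hne : ∃ c : ℕ, ∃ P : ℕ, 0 < P ∧ (J P).ncard = c := ⟨_, 1, one_pos, rfl⟩
    obtain ⟨P, hP, hc⟩ := Nat.find_spec hne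
    refine ⟨P, hP, fun Q hQ => ?_⟩
    rw [hc]
    exact Nat.find_min' hne ⟨Q, hQ, rfl⟩
  have hsub : ∀ P Q : ℕ, 0 < Q → J (P * Q) ⊆ J P := by
    rintro P Q hQ _ ⟨n, hn, rfl⟩
    exact ⟨Q * n, Nat.mul_pos hQ hn, by rw [mul_assoc]⟩
  have heq : ∀ Q : ℕ, 0 < Q → J (P₀ * Q) = J P₀ := fun Q hQ =>
    Set.eq_of_subset_of_ncard_le (hsub P₀ Q hQ) (hmin _ (Nat.mul_pos hP₀ hQ)) (hJ _)
  have hmul : ∀ s ∈ J P₀, ∀ t ∈ J P₀, s * t ∈ J P₀ := by
    rintro _ ⟨m, hm, rfl⟩ _ ⟨n, hn, rfl⟩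
    refine ⟨m * (P₀ * n), Nat.mul_pos hm (Nat.mul_pos hP₀ hn), ?_⟩
    rw [← hf _ _ (Nat.mul_pos hP₀ hm) (Nat.mul_pos hP₀ hn), mul_assoc]
  let I : Type := {s : M // s ∈ J P₀}
  letI hIs : CommSemigroup I :=
    { mul := fun s t => ⟨s.1 * t.1, hmul _ s.2 _ t.2⟩
      mul_assoc := fun a b c => Subtype.ext (mul_assoc a.1 b.1 c.1)
      mul_comm := fun a b => Subtype.ext (mul_comm a.1 b.1) }
  have hval : ∀ s t : I, (s * t).1 = s.1 * t.1 := fun s t => rfl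
  have hsurj : ∀ s u : I, ∃ t : I, s * t = u := by
    rintro ⟨_, m, hm, rfl⟩ ⟨u, hu⟩
    have h1 : u ∈ J (P₀ * (m * P₀)) := by
      rw [heq _ (Nat.mul_pos hm hP₀)]
      exact hu
    obtain ⟨n, hn, hun⟩ := h1
    refine ⟨⟨f (P₀ * n), n, hn, rfl⟩, Subtype.ext ?_⟩
    rw [hval]
    show f (P₀ * m) * f (P₀ * n) = u
    rw [← hf _ _ (Nat.mul_pos hP₀ hm) (Nat.mul_pos hP₀ hn), hun]
    congr 1
    ring
  obtain ⟨e, he1, he2⟩ := exists_unit hsurj ⟨f (P₀ * 1), 1, one_pos, rfl⟩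
  letI hG : CommGroup I := mkGroup I e he1 he2
  haveI : Finite I := Subtype.finite
  obtain ⟨n₀, hn₀, hen⟩ := e.2
  have hP : 0 < P₀ * n₀ := Nat.mul_pos hP₀ hn₀
  have hin : ∀ n : ℕ, 0 < n → f (P₀ * n₀ * n) ∈ J P₀ := fun n hn =>
    ⟨n₀ * n, Nat.mul_pos hn₀ hn, by rw [mul_assoc]⟩
  refine ⟨P₀ * n₀, hP, Additive I, inferInstance, inferInstance,
    fun n => if h : 0 < n then Additive.ofMul (⟨f (P₀ * n₀ * n), hin n h⟩ : I) else 0, ?_, ?_⟩
  · intro m n hm hn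
    have hmn : 0 < m * n := Nat.mul_pos hm hn
    simp only [hm, hn, hmn, dif_pos]
    rw [← ofMul_mul]
    congr 1
    have h1 : (e * (⟨f (P₀ * n₀ * (m * n)), hin _ hmn⟩ : I)) = ⟨f (P₀ * n₀ * (m * n)), hin _ hmn⟩ :=
      he1 _
    have h2 := congrArg Subtype.val h1
    have h3 : e.1 * f (P₀ * n₀ * (m * n)) = f (P₀ * n₀ * (m * n)) := h2
    apply Subtype.ext
    show f (P₀ * n₀ * (m * n)) = f (P₀ * n₀ * m) * f (P₀ * n₀ * n)
    rw [← hf _ _ (Nat.mul_pos hP hm) (Nat.mul_pos hP hn), ← h3, hen,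
      ← hf _ _ hP (Nat.mul_pos hP hmn)]
    congr 1
    ring
  · intro m n hm hn h
    simp only [hm, hn, dif_pos] at h
    exact congrArg Subtype.val (Additive.ofMul.injective h)

/-- dilates of automatic sequences are automatic -/
theorem auto_dilate {A : Type} {k : ℕ} (hk : 0 < k) {a : ℕ → A} (ha : (kerS k a).Finite) {P : ℕ}
    (hP : 0 < P) : (kerS k (fun n => a (P * n))).Finite := by
  have h1 : ((fun q : ((ℕ → A) × ℕ) => fun n : ℕ => q.1 (P * n + q.2)) ''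
      ((kerS k a) ×ˢ (Set.Iio P))).Finite := (ha.prod (Set.finite_Iio P)).image _
  refine h1.subset ?_
  rintro g ⟨i, j, hj, rfl⟩
  have hki : 0 < k ^ i := pow_pos hk i
  refine ⟨(fun n => a (k ^ i * n + (P * j) % k ^ i), (P * j) / k ^ i),
    ⟨⟨i, (P * j) % k ^ i, Nat.mod_lt _ hki, rfl⟩, ?_⟩, ?_⟩
  · rw [Set.mem_Iio, Nat.div_lt_iff_lt_mul hki]
    exact Nat.mul_lt_mul_of_pos_left hj hP
  · funext n
    show a (k ^ i * (P * n + P * j / k ^ i) + P * j % k ^ i) = a (P * (k ^ i * n + j))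
    congr 1
    have h2 := Nat.div_add_mod (P * j) (k ^ i)
    calc k ^ i * (P * n + P * j / k ^ i) + P * j % k ^ i
        = k ^ i * (P * n) + (k ^ i * (P * j / k ^ i) + P * j % k ^ i) := by ring
      _ = k ^ i * (P * n) + P * j := by rw [h2]
      _ = _ := by ring

end Pool.Agent.N912.PY.Semi
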