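import Pool.Agent.N106.PY.LF1
import Pool.Agent.N124.PY.Cb
import Pool.Agent.N130.PY.Van
import Pool.Agent.N263.PY.Kat
import Pool.Agent.N300.PY.Cnt
import Pool.Agent.N349.PY.Pos
import Pool.Agent.N619.PY.TKG
import Pool.Agent.N644.PY.LF2
import Pool.Agent.N654.PY.GPAll
import Pool.Agent.N700.PY.BT
import Pool.Agent.N720.PY.NPF
import Pool.Agent.N912.PY.Multi
import Pool.Agent.N912.PY.Semi

/-!
# Project PY (helper912): all parts together
-/

set_option autoImplicit false

namespace Pool.Agent.N912.PY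

theorem bt_all : S_BT :=
  Pool.Agent.N700.PY.BT.bt
    (Pool.Agent.N130.PY.van (Pool.Agent.N263.PY.Kat.kat Pool.Agent.N619.PY.tkg)
      N654.PY.gp (Pool.Agent.N644.PY.lf2 Pool.Agent.N106.PY.lf1)
      Pool.Agent.N720.PY.npf)
    Pool.Agent.N124.PY.cb Pool.Agent.N300.PY.cnt Pool.Agent.N349.PY.pos

theorem mb_all : Multi.S_MB := Multi.multi bt_all

end Pool.Agent.N912.PY
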