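import Pool.Agent.N912.PY.Stm

/-!
# Project PY (helper912): from one triple to all automatic colourings
-/

set_option autoImplicit false

namespace Pool.Agent.N912.PY

open Finset Filter

/-- FIN2: the theorem, with arbitrarily flat triangles -/
def S_FIN2 : Prop := ∀ k : ℕ, 2 ≤ k → ∀ (A : Type) (a : ℕ → A), (kerS k a).Finite →
  ∀ (G : Type) [AddCommGroup G] [Finite G] (f : ℕ → G), CA f → ∀ (r : ℕ) (H : ℕ → ℕ → Fin r),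
  ∀ t : ℕ, ∃ x y z : ℕ, 0 < x ∧ 0 < y ∧ 0 < z ∧ x ^ 2 + y ^ 2 = z ^ 2 ∧ t * x ≤ y ∧
    a x = a y ∧ a y = a z ∧ f x = f y ∧ f y = f z ∧
    H (padicValNat k x) (Nat.log k x) = H (padicValNat k y) (Nat.log k y) ∧
    H (padicValNat k y) (Nat.log k y) = H (padicValNat k z) (Nat.log k z)

theorem det2 (h2 : S_D2) (h3 : S_D3) (h4 : S_D4) (hB : S_BT) : S_FIN2 := by
  intro k hk A a ha G _ _ f hf r H t
  obtain ⟨P, n₀, l₀, hP, hn₀, hnl, hA⟩ := h2 k hk A a ha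
  obtain ⟨η, hη, hM⟩ := h3 k hk n₀ l₀ hn₀ hnl
  obtain ⟨B, hB1, hBT⟩ := hB k hk G f hf l₀ (min η 1) (lt_min hη one_pos)
  obtain ⟨Q, hQ⟩ : ∃ Q : ℕ, Q = P * B * (t + 1) := ⟨_, rfl⟩
  have hQ1 : 1 ≤ Q := by rw [hQ]; exact Nat.mul_pos (Nat.mul_pos hP hB1) (by omega)
  have hPQ : P ∣ Q := ⟨B * (t + 1), by rw [hQ]; ring⟩
  have hBQ : B ∣ Q := ⟨P * (t + 1), by rw [hQ]; ring⟩
  have htQ : t + 1 ≤ Q := by
    rw [hQ]
    exact Nat.le_mul_of_pos_left _ (Nat.mul_pos hP hB1)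
  have hk0 : 0 < k := by omega
  -- one `j`
  have hE : ∀ j : ℕ, ∃ D₀ : ℕ, 1 ≤ j → ∀ D : ℕ, D₀ ≤ D → 2 * (j * Q) + l₀ ≤ D ∧
      ∃ x y z c₀ u₁ u₂ u₃ : ℕ, 0 < x ∧ 0 < y ∧ 0 < z ∧ (k ^ (j * Q) * x) ^ 2 + y ^ 2 = z ^ 2 ∧
        t * (k ^ (j * Q) * x) ≤ y ∧ f (k ^ (j * Q) * x) = f y ∧ f y = f z ∧ 0 < c₀ ∧
        u₁ < k ^ (D - 2 * (j * Q) - l₀) ∧ u₂ < k ^ (D - l₀) ∧ u₃ < k ^ (D - l₀) ∧
        c₀ * x = n₀ + k ^ l₀ * u₁ + k ^ (D - 2 * (j * Q)) * n₀ ∧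
        c₀ * y = n₀ + k ^ l₀ * u₂ + k ^ D * n₀ ∧
        c₀ * z = n₀ + k ^ l₀ * u₃ + k ^ D * n₀ := by
    intro j
    rcases Nat.eq_zero_or_pos j with hj | hj
    · exact ⟨0, fun h => by omega⟩
    have h1 : 1 ≤ j * Q := Nat.mul_pos hj hQ1
    obtain ⟨x, y, z, hx, hy, hz, hxyz, c1, c2, c3, c4, c5, c6, c7⟩ :=
      hBT (j * Q) (j * Q) h1 h1 (Dvd.dvd.mul_left hBQ j) (Dvd.dvd.mul_left hBQ j)
    have hy0 : (0 : ℝ) < y := by exact_mod_cast hy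
    have hx0 : (0 : ℝ) < x := by exact_mod_cast hx
    have c4' : |(k : ℝ) ^ (j * Q + j * Q) * x - y| ≤ η * y :=
      c4.trans (mul_le_mul_of_nonneg_right (min_le_left _ _) hy0.le)
    have c5' : |(z : ℝ) - y| ≤ η * y :=
      c5.trans (mul_le_mul_of_nonneg_right (min_le_left _ _) hy0.le)
    have ht : t * (k ^ (j * Q) * x) ≤ y := by
      have k1 : (k : ℝ) ^ (j * Q + j * Q) * x - y ≤ 1 * y :=
        (le_abs_self _).trans (c4.trans (mul_le_mul_of_nonneg_right (min_le_right _ _) hy0.le))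
      have k2 : (2 * t : ℝ) ≤ (k : ℝ) ^ (j * Q) := by
        have q1 : t < 2 ^ t := Nat.lt_two_pow_self
        have q2 : 2 ^ (t + 1) ≤ k ^ (j * Q) :=
          (Nat.pow_le_pow_left hk _).trans (Nat.pow_le_pow_right (by omega)
            (htQ.trans (Nat.le_mul_of_pos_left Q hj)))
        have q3 : 2 * t ≤ k ^ (j * Q) := by
          rw [pow_succ] at q2
          omega
        exact_mod_cast q3
      have k3 : (t : ℝ) * ((k : ℝ) ^ (j * Q) * x) ≤ y := by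
        rw [pow_add] at k1
        have k4 : (2 * t : ℝ) * ((k : ℝ) ^ (j * Q) * x) ≤ (k : ℝ) ^ (j * Q) * ((k : ℝ) ^ (j * Q) * x) :=
          mul_le_mul_of_nonneg_right k2 (by positivity)
        nlinarith
      exact_mod_cast k3
    obtain ⟨D₀, hD₀⟩ := hM (j * Q + j * Q) x y z hx hy hz c1 c2 c3 c4' c5'
    refine ⟨D₀, fun _ D hD => ?_⟩
    obtain ⟨g1, c₀, u₁, u₂, u₃, g2, g3, g4, g5, g6, g7, g8⟩ := hD₀ D hD
    rw [← two_mul] at g1 g3 g6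
    exact ⟨g1, x, y, z, c₀, u₁, u₂, u₃, hx, hy, hz, hxyz, ht, c6, c7, g2, g3, g4, g5, g6, g7, g8⟩
  choose D₀ hD₀ using hE
  obtain ⟨D₁, hD₁⟩ : ∃ D₁ : ℕ, ∀ j ∈ range (r + 1), D₀ j ≤ D₁ :=
    ⟨(range (r + 1)).sup D₀, fun j hj => Finset.le_sup hj⟩
  obtain ⟨Λ, hΛ⟩ : ∃ Λ : ℕ, Λ = D₁ + 2 * (r * Q) := ⟨_, rfl⟩
  obtain ⟨T, hT⟩ : ∃ T : ℕ, T = P + r * Q + Λ + l₀ + P := ⟨_, rfl⟩
  obtain ⟨pt, hpt⟩ : ∃ pt : Fin (r + 1) → Fin r, pt = fun i => H (P + i.1 * Q + padicValNat k n₀)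
    ((P - 1) * T + (P + Λ - i.1 * Q) + Nat.log k n₀) := ⟨_, rfl⟩
  have hpig : ∃ i₁ i₂ : Fin (r + 1), i₁ < i₂ ∧ pt i₁ = pt i₂ := by
    obtain ⟨i, i', hne, he⟩ := Fintype.exists_ne_map_eq_of_card_lt pt (by simp)
    rcases lt_or_gt_of_ne hne with h | h
    · exact ⟨i, i', h, he⟩
    · exact ⟨i', i, h, he.symm⟩
  obtain ⟨⟨i₁, hi₁⟩, ⟨i₂, hi₂⟩, hlt, heq⟩ := hpig
  rw [Fin.mk_lt_mk] at hlt
  rw [hpt] at heq
  simp only at heq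
  obtain ⟨j, hj⟩ : ∃ j : ℕ, i₂ = i₁ + j := ⟨i₂ - i₁, by omega⟩
  have hj1 : 1 ≤ j := by omega
  have hjr : j < r + 1 := by omega
  obtain ⟨D, hD⟩ : ∃ D : ℕ, D = Λ - 2 * (i₁ * Q) := ⟨_, rfl⟩
  have hi1r : i₁ * Q ≤ r * Q := Nat.mul_le_mul_right Q (by omega)
  have hi2r : i₂ * Q ≤ r * Q := Nat.mul_le_mul_right Q (by omega)
  have hi2 : i₂ * Q = i₁ * Q + j * Q := by rw [hj, add_mul]
  have hDD : D₀ j ≤ D := by
    have := hD₁ j (mem_range.2 hjr)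
    omega
  obtain ⟨g0, x, y, z, c₀, u₁, u₂, u₃, hx, hy, hz, hxyz, ht, f1, f2, hc₀, v1, v2, v3, e1,
    e2, e3⟩ :=
    hD₀ j hj1 D hDD
  obtain ⟨e, he⟩ : ∃ e : ℕ, e = P + i₁ * Q := ⟨_, rfl⟩
  obtain ⟨e', he'⟩ : ∃ e' : ℕ, e' = e + j * Q := ⟨_, rfl⟩
  obtain ⟨d', hd'⟩ : ∃ d' : ℕ, d' = D - 2 * (j * Q) := ⟨_, rfl⟩
  rw [← hd'] at v1 e1
  obtain ⟨ρ, hρ⟩ : ∃ ρ : ℕ, ρ = rep k T P := ⟨_, rfl⟩
  have hρ0 : 0 < ρ := by
    rw [hρ]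
    unfold rep
    exact sum_pos (fun j _ => pow_pos hk0 _) ⟨0, mem_range.2 hP⟩
  obtain ⟨c, hc⟩ : ∃ c : ℕ, c = k ^ e * c₀ * ρ := ⟨_, rfl⟩
  have hcpos : 0 < c := by rw [hc]; positivity
  have Xx : c * (k ^ (j * Q) * x) = k ^ e' * (n₀ + k ^ l₀ * u₁ + k ^ d' * n₀) * rep k T P := by
    rw [← e1, ← hρ, hc, he', pow_add]
    ring
  have Xy : c * y = k ^ e * (n₀ + k ^ l₀ * u₂ + k ^ D * n₀) * rep k T P := by
    rw [← e2, ← hρ, hc]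
    ring
  have Xz : c * z = k ^ e * (n₀ + k ^ l₀ * u₃ + k ^ D * n₀) * rep k T P := by
    rw [← e3, ← hρ, hc]
    ring
  have t1 : l₀ ≤ D := by omega
  have t2 : l₀ ≤ d' := by omega
  have t3 : e + D + l₀ + P ≤ T := by omega
  have t4 : e' + d' + l₀ + P ≤ T := by omega
  have t5 : P ≤ e := by omega
  have t6 : P ≤ e' := by omega
  have hPj : P ∣ j * Q := Dvd.dvd.mul_left hPQ j
  have m1 : e' ≡ e [MOD P] := by
    rw [he']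
    have : e + j * Q ≡ e + 0 [MOD P] := Nat.ModEq.add_left e ((Nat.modEq_zero_iff_dvd).2 hPj)
    simpa using this
  have m2 : d' ≡ D [MOD P] := by
    have h1 : D = d' + 2 * (j * Q) := by omega
    rw [h1]
    have : d' + 0 ≡ d' + 2 * (j * Q) [MOD P] :=
      Nat.ModEq.add_left d' ((Nat.modEq_zero_iff_dvd).2 (Dvd.dvd.mul_left hPj 2)).symm
    simpa using this
  have a1 : a (c * (k ^ (j * Q) * x)) = a (c * y) := by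
    rw [Xx, Xy]
    exact hA P T hP dvd_rfl e' d' u₁ e D u₂ t6 t5 t2 t1 v1 v2 t4 t3 m1 m2
  have a2 : a (c * y) = a (c * z) := by
    rw [Xy, Xz]
    exact hA P T hP dvd_rfl e D u₂ e D u₃ t5 t5 t1 t1 v2 v3 t3 t3 rfl rfl
  have b1 := h4 k hk n₀ l₀ hn₀ hnl e' d' u₁ T P t2 v1 (by omega) hP
  have b2 := h4 k hk n₀ l₀ hn₀ hnl e D u₂ T P t1 v2 (by omega) hP
  have b3 := h4 k hk n₀ l₀ hn₀ hnl e D u₃ T P t1 v3 (by omega) hP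
  rw [← Xx] at b1
  rw [← Xy] at b2
  rw [← Xz] at b3
  have s1 : e' + padicValNat k n₀ = P + i₂ * Q + padicValNat k n₀ := by omega
  have s2 : (P - 1) * T + e' + d' + Nat.log k n₀ = (P - 1) * T + (P + Λ - i₂ * Q) + Nat.log k n₀ := by
    have : e' + d' = P + Λ - i₂ * Q := by omega
    rw [← this]
    ring
  have s3 : e + padicValNat k n₀ = P + i₁ * Q + padicValNat k n₀ := by omega
  have s4 : (P - 1) * T + e + D + Nat.log k n₀ = (P - 1) * T + (P + Λ - i₁ * Q) + Nat.log k n₀ := by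
    have : e + D = P + Λ - i₁ * Q := by omega
    rw [← this]
    ring
  have hkx : 0 < k ^ (j * Q) * x := Nat.mul_pos (pow_pos hk0 _) hx
  refine ⟨c * (k ^ (j * Q) * x), c * y, c * z, Nat.mul_pos hcpos hkx, Nat.mul_pos hcpos hy,
    Nat.mul_pos hcpos hz, ?_, ?_, a1, a2, ?_, ?_, ?_, ?_⟩
  · calc (c * (k ^ (j * Q) * x)) ^ 2 + (c * y) ^ 2 = c ^ 2 * ((k ^ (j * Q) * x) ^ 2 + y ^ 2) := by
          ring
      _ = (c * z) ^ 2 := by rw [hxyz]; ring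
  · calc t * (c * (k ^ (j * Q) * x)) = c * (t * (k ^ (j * Q) * x)) := by ring
      _ ≤ c * y := Nat.mul_le_mul_left c ht
  · rw [hf c _ hcpos hkx, hf c y hcpos hy, f1]
  · rw [hf c z hcpos hz, hf c y hcpos hy, f2]
  · rw [b1.1, b1.2, b2.1, b2.2, s1, s2, s3, s4]
    exact heq.symm
  · rw [b2.1, b2.2, b3.1, b3.2]

theorem det (h2 : S_D2) (h3 : S_D3) (h4 : S_D4) (hB : S_BT) : S_FIN := by
  intro k hk A a ha G _ _ f hf r H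
  obtain ⟨x, y, z, h1, h2, h3, h4, -, h5⟩ := det2 h2 h3 h4 hB k hk A a ha G f hf r H 0
  exact ⟨x, y, z, h1, h2, h3, h4, h5⟩

end Pool.Agent.N912.PY
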