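import Pool.Agent.N344.PY.D1
import Pool.Agent.N458.PY.D4
import Pool.Agent.N669.PY.D2
import Pool.Agent.N80.PY.D3
import Pool.Agent.N912.PY.Det
import Pool.Agent.N912.PY.All

/-!
# Project PY (helper912): one base, with the numbers of digits and of trailing zeros
(not handed in)
-/

set_option autoImplicit false

namespace Pool.Agent.N912.PY

theorem fin2_all : S_FIN2 :=
  det2 (Pool.Agent.N669.PY.D2.d2 Pool.Agent.N344.PY.d1) Pool.Agent.N80.PY.D3.d3
    Pool.Agent.N458.PY.D4.d4 bt_all

end Pool.Agent.N912.PY
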